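import Pool.Agent.Helper55_GRF.CoreX

/-!
# Separation of finite sets from the identity and from the stabilisers of lines
-/

set_option autoImplicit false

namespace Pool.Agent.CuspCov

open Matrix

theorem coreSep {G : Type} [Group G] (hG : Group.FG G) {m : Type} [Fintype m] [DecidableEq m]
    (ρ : G →* Matrix m m ℝ) (hinj : Function.Injective ρ)
    {ι κ : Type} [Fintype ι] [Fintype κ]
    (X : ι → κ → Matrix m m ℝ) (hX : ∀ i, LinearIndependent ℝ (X i))
    (e : ι → m → ℝ) (P : ι → Subgroup G) (hfix : ∀ i, ∀ g ∈ P i, ρ g *ᵥ e i = e i)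
    (hstab : ∀ i g, (∃ c : ℝ, ρ g *ᵥ e i = c • e i) → g ∈ P i) (F : Finset G) :
    ∃ D : ℕ, 0 < D ∧ ∀ t : ℕ, 1 < t → Nat.Coprime t D →
      ∃ N : Subgroup G, N.Normal ∧ N.FiniteIndex ∧
        (∀ (i : ι) (g : G) (a : κ → ℤ) (Z : Matrix m m ℝ), Z = ∑ j, (a j : ℝ) • X i j →
          Z * Z * Z = 0 → ρ g = 1 + Z + (1/2 : ℝ) • (Z * Z) →
          (g ∈ N ↔ ∀ j, (t : ℤ) ∣ a j)) ∧
        (∀ x ∈ F, x ≠ 1 → x ∉ N) ∧
        (∀ x ∈ F, ∀ i, x ∉ P i → ∀ u ∈ P i, ∀ ν ∈ N, x ≠ u * ν) := by
  classical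
  let mi : G → ι → m → m → ℝ := fun x i p q =>
    (ρ x *ᵥ e i) p * e i q - (ρ x *ᵥ e i) q * e i p
  let E0 : Finset ℝ :=
    (Finset.univ.image fun x : ι × m => e x.1 x.2) ∪
    (F.biUnion fun x => Finset.univ.image fun pq : m × m =>
      (ρ x pq.1 pq.2 - (1 : Matrix m m ℝ) pq.1 pq.2)⁻¹) ∪
    (F.biUnion fun x => Finset.univ.image fun y : ι × m × m => (mi x y.1 y.2.1 y.2.2)⁻¹)
  obtain ⟨D, hD, hkey⟩ := coreX hG ρ X hX E0
  refine ⟨D, hD, ?_⟩
  intro t ht htD
  obtain ⟨B, R, hR, θ, hE0, hθ, ρB, hρB, N, hN, hNf, hNmem, hcore⟩ := hkey t (by omega) htD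
  have he : ∀ i p, e i p ∈ B := by
    intro i p
    apply hE0
    simp only [E0, Finset.mem_union]
    left; left
    exact Finset.mem_image.mpr ⟨(i, p), Finset.mem_univ _, rfl⟩
  have hinv1 : ∀ x ∈ F, ∀ p q, (ρ x p q - (1 : Matrix m m ℝ) p q)⁻¹ ∈ B := by
    intro x hx p q
    apply hE0
    simp only [E0, Finset.mem_union]
    left; right
    exact Finset.mem_biUnion.mpr ⟨x, hx, Finset.mem_image.mpr ⟨(p, q), Finset.mem_univ _, rfl⟩⟩
  have hinv2 : ∀ x ∈ F, ∀ i p q, (mi x i p q)⁻¹ ∈ B := by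
    intro x hx i p q
    apply hE0
    simp only [E0, Finset.mem_union]
    right
    exact Finset.mem_biUnion.mpr ⟨x, hx, Finset.mem_image.mpr ⟨(i, p, q), Finset.mem_univ _, rfl⟩⟩
  -- invertible elements are not killed
  have hunit : ∀ c : B, ((c : ℝ))⁻¹ ∈ B → (c : ℝ) ≠ 0 → θ c ≠ 0 := by
    intro c hc hc0 hθc
    have h1 : c * ⟨_, hc⟩ = 1 := Subtype.ext (mul_inv_cancel₀ hc0)
    have h2 : θ 1 = 0 := by rw [← h1, map_mul, hθc, zero_mul]
    have h3 : θ ((1 : ℤ) : B) = 0 := by rw [Int.cast_one]; exact h2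
    have h4 := (hθ 1).mp h3
    have h5 := Int.le_of_dvd one_pos h4
    omega
  have hone : ∀ p q, (((1 : Matrix m m B) p q : B) : ℝ) = (1 : Matrix m m ℝ) p q := by
    intro p q
    rw [Matrix.one_apply, Matrix.one_apply]
    split_ifs <;> rfl
  refine ⟨N, hN, hNf, hcore, ?_, ?_⟩
  · intro x hx hx1 hxN
    have h1 : ρ x ≠ 1 := by
      intro h; apply hx1; apply hinj; rw [h, map_one]
    have h2 : ∃ p q, ρ x p q ≠ (1 : Matrix m m ℝ) p q := by
      by_contra h
      push Not at h
      exact h1 (Matrix.ext h)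
    obtain ⟨p, q, hpq⟩ := h2
    have h3 := (hNmem x).mp hxN p q
    have h4 : ((ρB x p q - (1 : Matrix m m B) p q : B) : ℝ)
        = ρ x p q - (1 : Matrix m m ℝ) p q := by
      rw [← hone, ← hρB]; rfl
    apply hunit (ρB x p q - (1 : Matrix m m B) p q)
    · rw [h4]; exact hinv1 x hx p q
    · rw [h4]; exact sub_ne_zero.mpr hpq
    · rw [map_sub, h3, sub_self]
  · intro x hx i hxP u hu ν hν hxuν
    -- some minor is nonzero
    have h1 : ∃ p q, mi x i p q ≠ 0 := by
      by_contra h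
      push Not at h
      apply hxP
      apply hstab
      by_cases he0 : e i = 0
      · exact ⟨0, by rw [he0]; simp⟩
      · obtain ⟨q, hq⟩ := Function.ne_iff.mp he0
        refine ⟨(ρ x *ᵥ e i) q / e i q, ?_⟩
        ext p
        have h2 := h p q
        simp only [mi] at h2
        rw [Pi.smul_apply, smul_eq_mul, div_mul_eq_mul_div, eq_div_iff hq]
        linarith
    obtain ⟨p, q, hpq⟩ := h1
    let eB : m → B := fun p => ⟨e i p, he i p⟩
    -- vectors
    let vB : G → m → B := fun g p => ∑ k, ρB g p k * eB k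
    have hvB : ∀ g p, ((vB g p : B) : ℝ) = (ρ g *ᵥ e i) p := by
      intro g p
      change B.subtype (∑ k, ρB g p k * eB k) = _
      rw [map_sum]
      simp only [Matrix.mulVec, dotProduct]
      refine Finset.sum_congr rfl fun k _ => ?_
      rw [map_mul]
      change ((ρB g p k : B) : ℝ) * e i k = _
      rw [hρB]
    have hν1 : ∀ k, θ (vB ν k) = θ (eB k) := by
      intro k
      simp only [vB]
      rw [map_sum]
      have h2 : ∀ l, θ (ρB ν k l * eB l) = θ ((1 : Matrix m m B) k l * eB l) := by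
        intro l
        rw [map_mul, (hNmem ν).mp hν k l, ← map_mul]
      rw [Finset.sum_congr rfl fun l _ => h2 l, ← map_sum]
      congr 1
      have h3 := congrFun (Matrix.one_mulVec eB) k
      simpa [Matrix.mulVec, dotProduct] using h3
    have hx1 : ∀ k, θ (vB x k) = θ (eB k) := by
      intro k
      have h2 : vB x k = ∑ l, ρB u k l * vB ν l := by
        apply Subtype.ext
        rw [hvB, hxuν, map_mul, ← Matrix.mulVec_mulVec]
        change _ = B.subtype (∑ l, ρB u k l * vB ν l)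
        rw [map_sum]
        simp only [Matrix.mulVec, dotProduct]
        refine Finset.sum_congr rfl fun l _ => ?_
        rw [map_mul]
        change _ = ((ρB u k l : B) : ℝ) * ((vB ν l : B) : ℝ)
        rw [hρB, hvB]
        rfl
      have h3 : vB u k = eB k := by
        apply Subtype.ext
        rw [hvB, hfix i u hu]
      rw [h2, map_sum]
      have h4 : ∀ l, θ (ρB u k l * vB ν l) = θ (ρB u k l * eB l) := by
        intro l
        rw [map_mul, hν1, ← map_mul]
      rw [Finset.sum_congr rfl fun l _ => h4 l, ← map_sum]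
      exact congrArg θ h3
    apply hunit (vB x p * eB q - vB x q * eB p)
    · have h5 : ((vB x p * eB q - vB x q * eB p : B) : ℝ) = mi x i p q := by
        change ((vB x p : B) : ℝ) * e i q - ((vB x q : B) : ℝ) * e i p = _
        rw [hvB, hvB]
      rw [h5]
      exact hinv2 x hx i p q
    · have h5 : ((vB x p * eB q - vB x q * eB p : B) : ℝ) = mi x i p q := by
        change ((vB x p : B) : ℝ) * e i q - ((vB x q : B) : ℝ) * e i p = _
        rw [hvB, hvB]
      rw [h5]
      exact hpq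
    · rw [map_sub, map_mul, map_mul, hx1, hx1, ← map_mul, ← map_mul, mul_comm, sub_self]

end Pool.Agent.CuspCov
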