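import Mathlib

/-!
# Equivariant bijections between finite sets with constant stabilisers
-/

set_option autoImplicit false

namespace Pool.Agent.GRF

variable {K : Type} [Group K] (K0 : Subgroup K)

/-- the structure of a finite set with an action all of whose stabilisers are `K0` -/
theorem orbits {Ω : Type} [Fintype Ω] (α : K →* Equiv.Perm Ω)
    (hα : ∀ a x, α a x = x ↔ a ∈ K0) {I : Type} (x : I → Ω)
    (hx : ∀ i j, i ≠ j → ∀ a, α a (x i) ≠ x j) :
    ∃ (O : Type) (_ : Fintype O) (e : O × (K ⧸ K0) ≃ Ω) (o : I → O),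
      Function.Injective o ∧ (∀ (a : K) (p : O) (b : K ⧸ K0), e (p, a • b) = α a (e (p, b))) ∧
      ∀ i, e (o i, ((1 : K) : K ⧸ K0)) = x i := by
  classical
  let s : Setoid Ω :=
    { r := fun u v => ∃ a, α a u = v
      iseqv := by
        refine ⟨fun u => ⟨1, by simp⟩, ?_, ?_⟩
        · rintro u v ⟨a, rfl⟩
          refine ⟨a⁻¹, ?_⟩
          rw [← Equiv.Perm.mul_apply, ← map_mul, inv_mul_cancel, map_one, Equiv.Perm.one_apply]
        · rintro u v w ⟨a, rfl⟩ ⟨b, rfl⟩
          exact ⟨b * a, by rw [map_mul, Equiv.Perm.mul_apply]⟩ }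
  let O := Quotient s
  let mk : Ω → O := fun u => Quotient.mk s u
  have hmk : ∀ u v, mk u = mk v ↔ ∃ a, α a u = v := fun u v => Quotient.eq (r := s)
  let o : I → O := fun i => mk (x i)
  have ho : Function.Injective o := by
    intro i j hij
    by_contra hne
    obtain ⟨a, ha⟩ := (hmk _ _).mp hij
    exact hx i j hne a ha
  -- representatives
  have hrep : ∀ p : O, ∃ u : Ω, mk u = p ∧ ∀ i, o i = p → u = x i := by
    intro p
    by_cases h : ∃ i, o i = p
    · obtain ⟨i, hi⟩ := h
      refine ⟨x i, hi, ?_⟩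
      intro j hj
      rw [ho (hi.trans hj.symm)]
    · refine ⟨Quotient.out p, Quotient.out_eq p, ?_⟩
      intro i hi
      exact absurd ⟨i, hi⟩ h
  choose r hr1 hr2 using hrep
  let f : O × (K ⧸ K0) → Ω := fun q =>
    Quotient.liftOn' q.2 (fun a => α a (r q.1)) (by
      intro a b hab
      have h1 : a⁻¹ * b ∈ K0 := by
        have := QuotientGroup.leftRel_apply.mp hab
        exact this
      have h2 := (hα (a⁻¹ * b) (r q.1)).mpr h1
      have h3 : α b (r q.1) = α a (α (a⁻¹ * b) (r q.1)) := by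
        rw [← Equiv.Perm.mul_apply, ← map_mul]; congr 2; group
      rw [h3, h2])
  have hf : ∀ (p : O) (a : K), f (p, (a : K ⧸ K0)) = α a (r p) := fun p a => rfl
  have hfb : Function.Bijective f := by
    constructor
    · rintro ⟨p, b⟩ ⟨p', b'⟩ h
      obtain ⟨a, rfl⟩ := QuotientGroup.mk_surjective b
      obtain ⟨a', rfl⟩ := QuotientGroup.mk_surjective b'
      rw [hf, hf] at h
      have hp : p = p' := by
        rw [← hr1 p, ← hr1 p', hmk]
        refine ⟨a'⁻¹ * a, ?_⟩
        rw [map_mul, Equiv.Perm.mul_apply, h, ← Equiv.Perm.mul_apply, ← map_mul, inv_mul_cancel,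
          map_one, Equiv.Perm.one_apply]
      subst hp
      have h4 : α (a⁻¹ * a') (r p) = r p := by
        rw [map_mul, Equiv.Perm.mul_apply, ← h, ← Equiv.Perm.mul_apply, ← map_mul, inv_mul_cancel,
          map_one, Equiv.Perm.one_apply]
      have h5 := (hα _ _).mp h4
      have h6 : ((a : K) : K ⧸ K0) = a' := QuotientGroup.eq.mpr h5
      rw [h6]
    · intro u
      obtain ⟨a, ha⟩ := (hmk (r (mk u)) u).mp (hr1 (mk u))
      exact ⟨(mk u, (a : K ⧸ K0)), by rw [hf, ha]⟩
  let e : O × (K ⧸ K0) ≃ Ω := Equiv.ofBijective f hfb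
  refine ⟨O, inferInstance, e, o, ho, ?_, ?_⟩
  · intro a p b
    obtain ⟨c, rfl⟩ := QuotientGroup.mk_surjective b
    change f (p, ((a * c : K) : K ⧸ K0)) = α a (f (p, (c : K ⧸ K0)))
    rw [hf, hf, map_mul, Equiv.Perm.mul_apply]
  · intro i
    change f (o i, ((1 : K) : K ⧸ K0)) = x i
    rw [hf, map_one, Equiv.Perm.one_apply]
    exact hr2 (o i) i rfl

/-- **Equivariant extension.** -/
theorem equivariant {Ω Ω' : Type} [Fintype Ω] [Fintype Ω'] (hcard : Fintype.card Ω = Fintype.card Ω')
    (α : K →* Equiv.Perm Ω) (hα : ∀ a x, α a x = x ↔ a ∈ K0)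
    (β : K →* Equiv.Perm Ω') (hβ : ∀ a x, β a x = x ↔ a ∈ K0)
    {I : Type} [Fintype I] (x : I → Ω) (hx : ∀ i j, i ≠ j → ∀ a, α a (x i) ≠ x j)
    (y : I → Ω') (hy : ∀ i j, i ≠ j → ∀ a, β a (y i) ≠ y j) :
    ∃ F : Ω ≃ Ω', (∀ a ω, F (α a ω) = β a (F ω)) ∧ ∀ i, F (x i) = y i := by
  classical
  rcases isEmpty_or_nonempty Ω with hE | hN
  · have hE' : IsEmpty Ω' := by
      rw [← Fintype.card_eq_zero_iff, ← hcard, Fintype.card_eq_zero_iff]; exact hE
    refine ⟨Equiv.equivOfIsEmpty Ω Ω', fun a ω => (hE.false ω).elim, fun i => (hE.false (x i)).elim⟩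
  · obtain ⟨O, hO, e, o, ho, he, heo⟩ := orbits K0 α hα x hx
    obtain ⟨O', hO', e', o', ho', he', heo'⟩ := orbits K0 β hβ y hy
    obtain ⟨ω0⟩ := hN
    have hKf : Finite (K ⧸ K0) := by
      have hinj : Function.Injective (fun b : K ⧸ K0 => e ((e.symm ω0).1, b)) := by
        intro b b' hbb
        have := e.injective hbb
        exact congrArg Prod.snd this
      exact Finite.of_injective _ hinj
    have hKF : Fintype (K ⧸ K0) := Fintype.ofFinite _
    have hc : Fintype.card O * Fintype.card (K ⧸ K0) = Fintype.card O' * Fintype.card (K ⧸ K0) := by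
      rw [← Fintype.card_prod, ← Fintype.card_prod, Fintype.card_congr e, Fintype.card_congr e',
        hcard]
    have hKpos : 0 < Fintype.card (K ⧸ K0) := Fintype.card_pos_iff.mpr ⟨((1 : K) : K ⧸ K0)⟩
    have hOO : Fintype.card O = Fintype.card O' := Nat.eq_of_mul_eq_mul_right hKpos hc
    -- extend
    have hext : ∃ σ : O ≃ O', ∀ i, σ (o i) = o' i := by
      let g : O → O' := fun p => if h : ∃ i, o i = p then o' h.choose else
        (Fintype.equivOfCardEq hOO) p
      have hg : ∀ i, g (o i) = o' i := by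
        intro i
        have h : ∃ j, o j = o i := ⟨i, rfl⟩
        simp only [g, dif_pos h]
        rw [ho h.choose_spec]
      obtain ⟨σ, hσ⟩ := Finset.exists_equiv_extend_of_card_eq (t := (Finset.univ : Finset O'))
        (by rw [Finset.card_univ, hOO]) (s := Finset.univ.image o) (f := g)
        (Finset.subset_univ _) (by
          intro p hp p' hp' hpp
          simp only [Finset.coe_image, Finset.coe_univ, Set.image_univ, Set.mem_range] at hp hp'
          obtain ⟨i, rfl⟩ := hp
          obtain ⟨j, rfl⟩ := hp'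
          rw [hg, hg] at hpp
          rw [ho' hpp])
      refine ⟨σ.trans (Equiv.subtypeUnivEquiv (fun p => Finset.mem_univ p)), ?_⟩
      intro i
      have := hσ (o i) (Finset.mem_image.mpr ⟨i, Finset.mem_univ _, rfl⟩)
      rw [hg] at this
      exact this
    obtain ⟨σ, hσ⟩ := hext
    refine ⟨(e.symm.trans ((Equiv.prodCongr σ (Equiv.refl _)).trans e')), ?_, ?_⟩
    · intro a ω
      obtain ⟨⟨p, b⟩, rfl⟩ := e.surjective ω
      rw [← he]
      simp only [Equiv.trans_apply, Equiv.symm_apply_apply, Equiv.prodCongr_apply, Prod.map_apply,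
        Equiv.refl_apply]
      rw [he']
    · intro i
      rw [← heo i]
      simp only [Equiv.trans_apply, Equiv.symm_apply_apply, Equiv.prodCongr_apply, Prod.map_apply,
        Equiv.refl_apply]
      rw [hσ, heo']

end Pool.Agent.GRF
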