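import Pool.Agent.Helper55_GRF.Perm

/-!
# Residual finiteness of fundamental groups of graphs of groups with compatible finite quotients
-/

set_option autoImplicit false

namespace Pool.Agent.GRF

open Monoid

/-- finite quotients of `G` which are characteristic (`t`-th powers) on all subgroups `B j` and
separate finite sets from the identity and from the subgroups `B j` -/
def Sep {G : Type} [Group G] {J : Type} (B : J → Subgroup G) : Prop :=
  ∀ F : Finset G, ∃ D : ℕ, 0 < D ∧ ∀ t : ℕ, 1 < t → Nat.Coprime t D →
    ∃ N : Subgroup G, N.Normal ∧ N.FiniteIndex ∧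
      (∀ j, ∀ g ∈ B j, g ∈ N ↔ ∃ h ∈ B j, g = h ^ t) ∧
      (∀ x ∈ F, x ≠ 1 → x ∉ N) ∧
      (∀ x ∈ F, ∀ j, x ∉ B j → ∀ u ∈ B j, ∀ ν ∈ N, x ≠ u * ν)

/-- a step: edge, direction, and the vertex element after it (as a coordinate of a family) -/
abbrev Step {V : Type} (G : V → Type) (E : Type) : Type := E × Bool × (∀ v, G v)

section

variable {V : Type} (G : V → Type) [∀ v, Group (G v)] {J : V → Type}
  (B : ∀ v, J v → Subgroup (G v)) {E : Type} (src tgt : E → V) (bs : ∀ e, J (src e))
  (bt : ∀ e, J (tgt e)) (glue : ∀ e, B (src e) (bs e) ≃* B (tgt e) (bt e))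

/-- the free product of the vertex groups and of the free group on the edges -/
abbrev Free (E : Type) : Type := Coprod (CoprodI G) (FreeGroup E)

/-- the relations `t_e φ_e(a) t_e⁻¹ = a` of the graph of groups -/
def Rels : Set (Free G E) :=
  {x | ∃ (e : E) (a : B (src e) (bs e)),
    x = Coprod.inr (FreeGroup.of e) * Coprod.inl (CoprodI.of (i := tgt e) (glue e a : G (tgt e))) *
      (Coprod.inr (FreeGroup.of e))⁻¹ * (Coprod.inl (CoprodI.of (i := src e) (a : G (src e))))⁻¹}

/-- the Bass group of the graph of groups (Serre, Trees, I.5.1) -/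
abbrev Bass : Type := Free G E ⧸ Subgroup.normalClosure (Rels G B src tgt bs bt glue)

/-- vertex elements in the Bass group -/
def vx (v : V) (g : G v) : Bass G B src tgt bs bt glue :=
  QuotientGroup.mk (Coprod.inl (CoprodI.of (i := v) g))

/-- edge elements in the Bass group -/
def ed (e : E) : Bass G B src tgt bs bt glue :=
  QuotientGroup.mk (Coprod.inr (FreeGroup.of e))

/-- `x` is represented by a path of the graph of groups from `v` to `w` -/
inductive IsPath : V → V → Bass G B src tgt bs bt glue → Prop
  | nil (v : V) (g : G v) : IsPath v v (vx G B src tgt bs bt glue v g)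
  | fwd (e : E) (g : G (src e)) (w : V) (x : Bass G B src tgt bs bt glue) :
      IsPath (tgt e) w x →
      IsPath (src e) w (vx G B src tgt bs bt glue (src e) g * ed G B src tgt bs bt glue e * x)
  | bwd (e : E) (g : G (tgt e)) (w : V) (x : Bass G B src tgt bs bt glue) :
      IsPath (src e) w x →
      IsPath (tgt e) w (vx G B src tgt bs bt glue (tgt e) g *
        (ed G B src tgt bs bt glue e)⁻¹ * x)

variable {G B src tgt bs bt glue}

theorem vx_mul (v : V) (g h : G v) : vx G B src tgt bs bt glue v (g * h) =
    vx G B src tgt bs bt glue v g * vx G B src tgt bs bt glue v h := by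
  unfold vx
  rw [map_mul, map_mul]
  rfl

theorem vx_one (v : V) : vx G B src tgt bs bt glue v 1 = 1 := by
  unfold vx
  rw [map_one, map_one]
  rfl

theorem vx_inv (v : V) (g : G v) : vx G B src tgt bs bt glue v g⁻¹ =
    (vx G B src tgt bs bt glue v g)⁻¹ := by
  rw [eq_comm, inv_eq_iff_mul_eq_one, ← vx_mul, mul_inv_cancel, vx_one]

theorem rel (e : E) (a : B (src e) (bs e)) :
    ed G B src tgt bs bt glue e * vx G B src tgt bs bt glue (tgt e) (glue e a : G (tgt e)) *
      (ed G B src tgt bs bt glue e)⁻¹ = vx G B src tgt bs bt glue (src e) (a : G (src e)) := by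
  rw [← mul_inv_eq_one]
  unfold vx ed
  have h : (Coprod.inr (FreeGroup.of e) *
      Coprod.inl (CoprodI.of (i := tgt e) (glue e a : G (tgt e))) *
      (Coprod.inr (FreeGroup.of e))⁻¹ *
      (Coprod.inl (CoprodI.of (i := src e) (a : G (src e))))⁻¹ : Free G E) ∈
      Subgroup.normalClosure (Rels G B src tgt bs bt glue) :=
    Subgroup.subset_normalClosure ⟨e, a, rfl⟩
  exact (QuotientGroup.eq_one_iff _).mpr h

theorem IsPath.mul {u v w : V} {x y : Bass G B src tgt bs bt glue}
    (hx : IsPath G B src tgt bs bt glue u v x) (hy : IsPath G B src tgt bs bt glue v w y) :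
    IsPath G B src tgt bs bt glue u w (x * y) := by
  induction hx with
  | nil v g =>
    cases hy with
    | nil _ g' =>
      rw [← vx_mul]; exact IsPath.nil _ _
    | fwd e g' w x h =>
      rw [← mul_assoc, ← mul_assoc, ← vx_mul]; exact IsPath.fwd e _ w x h
    | bwd e g' w x h =>
      rw [← mul_assoc, ← mul_assoc, ← vx_mul]; exact IsPath.bwd e _ w x h
  | fwd e g v x h ih =>
    rw [mul_assoc]; exact IsPath.fwd e g w _ (ih hy)
  | bwd e g v x h ih =>
    rw [mul_assoc]; exact IsPath.bwd e g w _ (ih hy)

theorem IsPath.inv {u v : V} {x : Bass G B src tgt bs bt glue}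
    (hx : IsPath G B src tgt bs bt glue u v x) : IsPath G B src tgt bs bt glue v u x⁻¹ := by
  induction hx with
  | nil v g => rw [← vx_inv]; exact IsPath.nil _ _
  | fwd e g w x h ih =>
    have h1 : (vx G B src tgt bs bt glue (src e) g * ed G B src tgt bs bt glue e * x)⁻¹
        = x⁻¹ * (vx G B src tgt bs bt glue (tgt e) 1 * (ed G B src tgt bs bt glue e)⁻¹ *
          vx G B src tgt bs bt glue (src e) g⁻¹) := by
      rw [vx_one, vx_inv]; group
    rw [h1]
    exact ih.mul (IsPath.bwd e 1 _ _ (IsPath.nil _ _))
  | bwd e g w x h ih =>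
    have h1 : (vx G B src tgt bs bt glue (tgt e) g * (ed G B src tgt bs bt glue e)⁻¹ * x)⁻¹
        = x⁻¹ * (vx G B src tgt bs bt glue (src e) 1 * ed G B src tgt bs bt glue e *
          vx G B src tgt bs bt glue (tgt e) g⁻¹) := by
      rw [vx_one, vx_inv]; group
    rw [h1]
    exact ih.mul (IsPath.fwd e 1 _ _ (IsPath.nil _ _))

variable (G B src tgt bs bt glue)

/-- the fundamental group of the graph of groups at the vertex `v0` (Serre, Trees, I.5.1): the
group of the elements of the Bass group represented by closed paths at `v0` -/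
def Pi1 (v0 : V) : Subgroup (Bass G B src tgt bs bt glue) where
  carrier := {x | IsPath G B src tgt bs bt glue v0 v0 x}
  mul_mem' hx hy := IsPath.mul hx hy
  one_mem' := by
    have := IsPath.nil (G := G) (B := B) (src := src) (tgt := tgt) (bs := bs) (bt := bt)
      (glue := glue) v0 1
    rwa [vx_one] at this
  inv_mem' hx := IsPath.inv hx

/-! ## words -/

/-- end vertex of an oriented edge -/
def fi (e : E) : Bool → V
  | true => tgt e
  | false => src e

/-- initial vertex of an oriented edge -/
def st (e : E) : Bool → V
  | true => src e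
  | false => tgt e

/-- oriented edge in the Bass group -/
def te (e : E) : Bool → Bass G B src tgt bs bt glue
  | true => ed G B src tgt bs bt glue e
  | false => (ed G B src tgt bs bt glue e)⁻¹

/-- value of a word -/
def eval : V → (∀ v, G v) → List (Step G E) → Bass G B src tgt bs bt glue
  | v, h, [] => vx G B src tgt bs bt glue v (h v)
  | v, h, (e, b, h') :: L => vx G B src tgt bs bt glue v (h v) * te G B src tgt bs bt glue e b *
      eval (fi src tgt e b) h' L

/-- the word is a path from `v` to `w` -/
def chain : V → List (Step G E) → V → Prop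
  | v, [], w => v = w
  | v, (e, b, _) :: L, w => st src tgt e b = v ∧ chain (fi src tgt e b) L w

/-- backtracking -/
def back : Step G E → Step G E → Prop
  | (e, true, h), (e', false, _) => e = e' ∧ h (tgt e) ∈ B (tgt e) (bt e)
  | (e, false, h), (e', true, _) => e = e' ∧ h (src e) ∈ B (src e) (bs e)
  | _, _ => False

theorem exists_word [DecidableEq V] {v w : V} {x : Bass G B src tgt bs bt glue}
    (hx : IsPath G B src tgt bs bt glue v w x) :
    ∃ (h : ∀ v, G v) (L : List (Step G E)), chain G src tgt v L w ∧
      eval G B src tgt bs bt glue v h L = x := by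
  induction hx with
  | nil v g =>
    refine ⟨Function.update 1 v g, [], rfl, ?_⟩
    simp [eval]
  | fwd e g w x hp ih =>
    obtain ⟨h, L, hc, he⟩ := ih
    refine ⟨Function.update 1 (src e) g, (e, true, h) :: L, ⟨rfl, hc⟩, ?_⟩
    simp only [eval, Function.update_self]
    rw [← he]
    rfl
  | bwd e g w x hp ih =>
    obtain ⟨h, L, hc, he⟩ := ih
    refine ⟨Function.update 1 (tgt e) g, (e, false, h) :: L, ⟨rfl, hc⟩, ?_⟩
    simp only [eval, Function.update_self]
    rw [← he]
    rfl

theorem vx_mul_eval [DecidableEq V] (v : V) (g : G v) (h : ∀ v, G v) (L : List (Step G E)) :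
    vx G B src tgt bs bt glue v g * eval G B src tgt bs bt glue v h L =
      eval G B src tgt bs bt glue v (Function.update h v (g * h v)) L := by
  cases L with
  | nil => simp only [eval, Function.update_self]; rw [vx_mul]
  | cons s L =>
    obtain ⟨e, b, h'⟩ := s
    simp only [eval, Function.update_self]
    rw [vx_mul, mul_assoc, mul_assoc, mul_assoc]

/-- a word with backtracking can be shortened -/
theorem shorten [DecidableEq V] (v w : V) (h : ∀ v, G v) (L : List (Step G E))
    (hc : chain G src tgt v L w) (hb : ¬ List.IsChain (fun s s' => ¬ back G B src tgt bs bt s s') L) :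
    ∃ (h' : ∀ v, G v) (L' : List (Step G E)), chain G src tgt v L' w ∧
      L'.length < L.length ∧
      eval G B src tgt bs bt glue v h' L' = eval G B src tgt bs bt glue v h L := by
  induction L generalizing v h with
  | nil => exact absurd List.isChain_nil hb
  | cons s L ih =>
    cases L with
    | nil => exact absurd (List.isChain_singleton s) hb
    | cons s' L =>
      rw [List.isChain_cons_cons, not_and_or, not_not] at hb
      obtain ⟨e, b, h1⟩ := s
      obtain ⟨e', b', h2⟩ := s'
      obtain ⟨hv, hv', hcL⟩ := hc
      rcases hb with hb | hb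
      · cases b <;> cases b'
        · exact hb.elim
        · obtain ⟨rfl, hmem⟩ := hb
          change tgt e = v at hv
          subst hv
          let a : B (src e) (bs e) := ⟨h1 (src e), hmem⟩
          have hrel := rel (G := G) (B := B) (src := src) (tgt := tgt) (bs := bs) (bt := bt)
            (glue := glue) e a
          refine ⟨Function.update h2 (tgt e) (h (tgt e) * (glue e a : G (tgt e)) * h2 (tgt e)), L,
            hcL, ?_, ?_⟩
          · simp only [List.length_cons]; omega
          · rw [← vx_mul_eval, vx_mul]
            simp only [eval, te, fi]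
            change _ = vx G B src tgt bs bt glue (tgt e) (h (tgt e)) *
              (ed G B src tgt bs bt glue e)⁻¹ * (vx G B src tgt bs bt glue (src e) (a : G (src e)) *
              ed G B src tgt bs bt glue e * _)
            rw [← hrel]
            group
        · obtain ⟨rfl, hmem⟩ := hb
          change src e = v at hv
          subst hv
          let a' : B (tgt e) (bt e) := ⟨h1 (tgt e), hmem⟩
          let a := (glue e).symm a'
          have ha : (glue e a) = a' := (glue e).apply_symm_apply a'
          have hrel := rel (G := G) (B := B) (src := src) (tgt := tgt) (bs := bs) (bt := bt)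
            (glue := glue) e a
          refine ⟨Function.update h2 (src e) (h (src e) * (a : G (src e)) * h2 (src e)), L,
            hcL, ?_, ?_⟩
          · simp only [List.length_cons]; omega
          · rw [← vx_mul_eval, vx_mul]
            simp only [eval, te, fi]
            change _ = vx G B src tgt bs bt glue (src e) (h (src e)) *
              (ed G B src tgt bs bt glue e) * (vx G B src tgt bs bt glue (tgt e) (a' : G (tgt e)) *
              (ed G B src tgt bs bt glue e)⁻¹ * _)
            rw [← hrel, ha]
            group
        · exact hb.elim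
      · obtain ⟨h', L', hc', hlen, hev⟩ := ih (fi src tgt e b) h1 ⟨hv', hcL⟩ hb
        refine ⟨h, (e, b, h') :: L', ⟨hv, hc'⟩, ?_, ?_⟩
        · simp only [List.length_cons] at hlen ⊢; omega
        · simp only [eval] at hev ⊢
          rw [hev]

/-- a minimal word has no backtracking -/
theorem exists_reduced [DecidableEq V] {v w : V} {x : Bass G B src tgt bs bt glue}
    (hx : IsPath G B src tgt bs bt glue v w x) :
    ∃ (h : ∀ v, G v) (L : List (Step G E)), chain G src tgt v L w ∧
      eval G B src tgt bs bt glue v h L = x ∧
      List.IsChain (fun s s' => ¬ back G B src tgt bs bt s s') L := by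
  classical
  have hex : ∃ n : ℕ, ∃ (h : ∀ v, G v) (L : List (Step G E)), chain G src tgt v L w ∧
      eval G B src tgt bs bt glue v h L = x ∧ L.length = n := by
    obtain ⟨h, L, h1, h2⟩ := exists_word G B src tgt bs bt glue hx
    exact ⟨_, h, L, h1, h2, rfl⟩
  obtain ⟨h, L, h1, h2, h3⟩ := Nat.find_spec hex
  refine ⟨h, L, h1, h2, ?_⟩
  by_contra hb
  obtain ⟨h', L', hc', hlen, hev⟩ := shorten G B src tgt bs bt glue v w h L h1 hb
  have := Nat.find_min' hex ⟨h', L', hc', hev.trans h2, rfl⟩
  omega

end

end Pool.Agent.GRF
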