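import Pool.Agent.Helper55_GRF.Graph

/-!
# Residual finiteness of the fundamental group of a graph of groups
-/

set_option autoImplicit false

namespace Pool.Agent.GRF

open Monoid

theorem finite_quot {G : Type} [Group G] (N : Subgroup G) (hN : N.Normal) (hf : N.FiniteIndex) :
    ∃ (Q : Type) (_ : Group Q) (_ : Fintype Q) (q : G →* Q), ∀ g, q g = 1 ↔ g ∈ N := by
  refine ⟨G ⧸ N, inferInstance, Fintype.ofFinite _, QuotientGroup.mk' N, fun g => ?_⟩
  exact QuotientGroup.eq_one_iff g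

variable {V : Type} (G : V → Type) [∀ v, Group (G v)] {J : V → Type}
  (B : ∀ v, J v → Subgroup (G v)) {E : Type} (src tgt : E → V) (bs : ∀ e, J (src e))
  (bt : ∀ e, J (tgt e)) (glue : ∀ e, B (src e) (bs e) ≃* B (tgt e) (bt e))

/-- a homomorphism from the Bass group -/
theorem exists_hom {M : Type} [Group M] (a : ∀ v, G v →* M) (f : E → M)
    (hf : ∀ (e : E) (x : B (src e) (bs e)),
      f e * a (tgt e) (glue e x : G (tgt e)) * (f e)⁻¹ = a (src e) (x : G (src e))) :
    ∃ Ψ : Bass G B src tgt bs bt glue →* M,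
      (∀ v g, Ψ (vx G B src tgt bs bt glue v g) = a v g) ∧
      ∀ e, Ψ (ed G B src tgt bs bt glue e) = f e := by
  let Φ : Free G E →* M := Coprod.lift (CoprodI.lift a) (FreeGroup.lift f)
  have hΦ : ∀ x ∈ Rels G B src tgt bs bt glue, Φ x = 1 := by
    rintro x ⟨e, y, rfl⟩
    simp only [Φ, map_mul, map_inv, Coprod.lift_apply_inr, Coprod.lift_apply_inl,
      FreeGroup.lift_apply_of, CoprodI.lift_of]
    rw [hf, mul_inv_cancel]
  have hker : Subgroup.normalClosure (Rels G B src tgt bs bt glue) ≤ Φ.ker :=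
    Subgroup.normalClosure_le_normal fun x hx => hΦ x hx
  refine ⟨QuotientGroup.lift _ Φ hker, ?_, ?_⟩
  · intro v g
    change Φ (Coprod.inl (CoprodI.of g)) = _
    simp [Φ]
  · intro e
    change Φ (Coprod.inr (FreeGroup.of e)) = _
    simp [Φ]

theorem map_eval {M : Type} [Group M] (a : ∀ v, G v →* M) (f : E → M)
    (Ψ : Bass G B src tgt bs bt glue →* M)
    (h1 : ∀ v g, Ψ (vx G B src tgt bs bt glue v g) = a v g)
    (h2 : ∀ e, Ψ (ed G B src tgt bs bt glue e) = f e) (v : V) (h : ∀ v, G v)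
    (L : List (Step G E)) :
    Ψ (eval G B src tgt bs bt glue v h L) = a v (h v) *
      (L.map fun s => (if s.2.1 then f s.1 else (f s.1)⁻¹) *
        a (fi src tgt s.1 s.2.1) (s.2.2 (fi src tgt s.1 s.2.1))).prod := by
  induction L generalizing v h with
  | nil => simp [eval, h1]
  | cons s L ih =>
    obtain ⟨e, b, h'⟩ := s
    simp only [eval, List.map_cons, List.prod_cons]
    rw [map_mul, map_mul, ih, h1]
    have h3 : Ψ (te G B src tgt bs bt glue e b) = if b then f e else (f e)⁻¹ := by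
      cases b
      · simp [te, h2]
      · simp [te, h2]
    rw [h3]
    group

/-- **Residual finiteness** of the fundamental group of a graph of groups. -/
theorem residuallyFinite [Fintype V] (hSep : ∀ v, Sep (B v)) (v0 : V)
    (x : Bass G B src tgt bs bt glue) (hx : IsPath G B src tgt bs bt glue v0 v0 x) (hx1 : x ≠ 1) :
    ∃ (M : Type) (_ : Group M) (_ : Finite M) (Ψ : Bass G B src tgt bs bt glue →* M), Ψ x ≠ 1 := by
  classical
  obtain ⟨h, L, hc, hev, hred⟩ := exists_reduced G B src tgt bs bt glue hx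
  -- finite sets of relevant elements
  let F : ∀ v, Finset (G v) := fun v => insert (h v) (L.map fun s => s.2.2 v).toFinset
  choose D hD hDt using fun v => hSep v (F v)
  let D0 : ℕ := ∏ v, D v
  have hD0 : 0 < D0 := Finset.prod_pos fun v _ => hD v
  have hcop : ∀ v, Nat.Coprime (D0 + 1) (D v) := by
    intro v
    have h1 : Nat.Coprime (D0 + 1) D0 := by simp
    exact h1.coprime_dvd_right (Finset.dvd_prod_of_mem D (Finset.mem_univ v))
  choose N hN hNf hNB hN1 hN2 using fun v => hDt v (D0 + 1) (by omega) (hcop v)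
  choose Q hQg hQf q hq using fun v => finite_quot (N v) (hN v) (hNf v)
  have hqeq : ∀ v (g g' : G v), q v g = q v g' ↔ g⁻¹ * g' ∈ N v := by
    intro v g g'
    rw [← hq, map_mul, map_inv, inv_mul_eq_one]
  let qs : ∀ v, G v →* (∀ v, Q v) := fun v => (MonoidHom.mulSingle Q v).comp (q v)
  have hqs : ∀ v (g g' : G v), qs v g = qs v g' ↔ q v g = q v g' := by
    intro v g g'
    constructor
    · intro h1
      have h2 := congrFun h1 v
      simpa [qs] using h2
    · intro h1
      change MonoidHom.mulSingle Q v (q v g) = MonoidHom.mulSingle Q v (q v g')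
      rw [h1]
  have hqs1 : ∀ v (g : G v), qs v g = 1 ↔ g ∈ N v := by
    intro v g
    rw [← map_one (qs v), hqs, map_one, hq]
  let l := L.length
  let α : ∀ e, B (src e) (bs e) →* (∀ v, Q v) := fun e => (qs (src e)).comp (B _ _).subtype
  let β : ∀ e, B (src e) (bs e) →* (∀ v, Q v) := fun e =>
    (qs (tgt e)).comp ((B (tgt e) (bt e)).subtype.comp (glue e).toMonoidHom)
  have hαβ : ∀ e a, α e a = 1 ↔ β e a = 1 := by
    intro e a
    change qs (src e) (a : G (src e)) = 1 ↔ qs (tgt e) (glue e a : G (tgt e)) = 1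
    rw [hqs1, hqs1, hNB (src e) (bs e) _ a.2, hNB (tgt e) (bt e) _ (glue e a).2]
    constructor
    · rintro ⟨b, hb, hab⟩
      refine ⟨(glue e ⟨b, hb⟩ : G (tgt e)), (glue e ⟨b, hb⟩).2, ?_⟩
      have h1 : a = (⟨b, hb⟩ : B (src e) (bs e)) ^ (D0 + 1) := by
        apply Subtype.ext
        rw [hab]; simp
      rw [h1, map_pow]; simp
    · rintro ⟨b, hb, hab⟩
      refine ⟨((glue e).symm ⟨b, hb⟩ : G (src e)), ((glue e).symm ⟨b, hb⟩).2, ?_⟩
      have h1 : glue e a = (⟨b, hb⟩ : B (tgt e) (bt e)) ^ (D0 + 1) := by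
        apply Subtype.ext
        rw [hab]; simp
      have h2 : a = ((glue e).symm ⟨b, hb⟩) ^ (D0 + 1) := by
        rw [← map_pow, ← h1, MulEquiv.symm_apply_apply]
      conv_lhs => rw [h2]
      simp
  let edge : Fin l → E := fun j => (L.get j).1
  let sgn : Fin l → Bool := fun j => (L.get j).2.1
  let hh : Fin (l + 1) → (∀ v, Q v) := Fin.cons (qs v0 (h v0)) fun j =>
    qs (fi src tgt (L.get j).1 (L.get j).2.1) ((L.get j).2.2 (fi src tgt (L.get j).1 (L.get j).2.1))
  have hhs : ∀ j : Fin l, hh j.succ =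
    qs (fi src tgt (L.get j).1 (L.get j).2.1)
      ((L.get j).2.2 (fi src tgt (L.get j).1 (L.get j).2.1)) := fun j => rfl
  have hmem : ∀ (j : Fin l) (v : V), (L.get j).2.2 v ∈ F v := by
    intro j v
    apply Finset.mem_insert_of_mem
    rw [List.mem_toFinset]
    exact List.mem_map.mpr ⟨L.get j, List.get_mem L j, rfl⟩
  have hback : ∀ (j : ℕ) (hj : j + 1 < l), ¬ back G B src tgt bs bt
      (L.get ⟨j, Nat.lt_of_succ_lt hj⟩) (L.get ⟨j + 1, hj⟩) := by
    intro j hj
    exact List.isChain_iff_getElem.mp hred j hj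
  have hfintype : Fintype (∀ v, Q v) := inferInstance
  have hkey1 : ∀ s s' : Step G E, (∀ v, s.2.2 v ∈ F v) → ¬ back G B src tgt bs bt s s' →
      s.1 = s'.1 → s.2.1 = true → s'.2.1 = false → ∀ a : B (src s.1) (bs s.1),
      β s.1 a ≠ qs (fi src tgt s.1 s.2.1) (s.2.2 (fi src tgt s.1 s.2.1)) := by
    rintro ⟨e, b, k⟩ ⟨e', b', k'⟩ hm hb he hs hs' a heq
    simp only at he hs hs'
    subst he hs hs'
    have hnot : k (tgt e) ∉ B (tgt e) (bt e) := fun hk => hb ⟨rfl, hk⟩
    change qs (tgt e) (glue e a : G (tgt e)) = qs (tgt e) (k (tgt e)) at heq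
    rw [hqs, hqeq] at heq
    refine hN2 (tgt e) (k (tgt e)) (hm (tgt e)) (bt e) hnot (glue e a : G (tgt e))
      (glue e a).2 _ heq ?_
    rw [mul_inv_cancel_left]
  have hkey2 : ∀ s s' : Step G E, (∀ v, s.2.2 v ∈ F v) → ¬ back G B src tgt bs bt s s' →
      s.1 = s'.1 → s.2.1 = false → s'.2.1 = true → ∀ a : B (src s.1) (bs s.1),
      α s.1 a ≠ qs (fi src tgt s.1 s.2.1) (s.2.2 (fi src tgt s.1 s.2.1)) := by
    rintro ⟨e, b, k⟩ ⟨e', b', k'⟩ hm hb he hs hs' a heq
    simp only at he hs hs'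
    subst he hs hs'
    have hnot : k (src e) ∉ B (src e) (bs e) := fun hk => hb ⟨rfl, hk⟩
    change qs (src e) (a : G (src e)) = qs (src e) (k (src e)) at heq
    rw [hqs, hqeq] at heq
    refine hN2 (src e) (k (src e)) (hm (src e)) (bs e) hnot (a : G (src e)) a.2 _ heq ?_
    rw [mul_inv_cancel_left]
  obtain ⟨f, hf, hP⟩ := permRep (Q := ∀ v, Q v) (fun e => B (src e) (bs e)) α β hαβ l edge sgn hh
    (by
      intro j hj he hs hs' a heq
      exact hkey1 (L.get ⟨j, Nat.lt_of_succ_lt hj⟩) (L.get ⟨j + 1, hj⟩) (hmem _) (hback j hj)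
        he hs hs' a heq)
    (by
      intro j hj he hs hs' a heq
      exact hkey2 (L.get ⟨j, Nat.lt_of_succ_lt hj⟩) (L.get ⟨j + 1, hj⟩) (hmem _) (hback j hj)
        he hs hs' a heq)
  obtain ⟨Ψ, hΨ1, hΨ2⟩ := exists_hom G B src tgt bs bt glue (fun v => (lmul l).comp (qs v)) f (by
    intro e a
    rw [mul_inv_eq_iff_eq_mul]
    ext1 ω
    have := hf e a ω
    exact this)
  refine ⟨Equiv.Perm ((∀ v, Q v) × Fin (l + 1)), inferInstance, inferInstance, Ψ, ?_⟩
  intro hΨx
  have h5 := map_eval G B src tgt bs bt glue (fun v => (lmul l).comp (qs v)) f Ψ hΨ1 hΨ2 v0 h L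
  rw [hev, hΨx] at h5
  have h6 : (L.map fun s => (if s.2.1 then f s.1 else (f s.1)⁻¹) *
        ((lmul l).comp (qs (fi src tgt s.1 s.2.1))) (s.2.2 (fi src tgt s.1 s.2.1)))
      = List.ofFn fun j : Fin l => (if sgn j then f (edge j) else (f (edge j))⁻¹) *
        lmul l (hh j.succ) := by
    conv_lhs => rw [← List.ofFn_get L, List.map_ofFn]
    rfl
  rw [h6] at h5
  have h7 : ((lmul l).comp (qs v0)) (h v0) = lmul l (hh 0) := rfl
  rw [h7] at h5
  have h8 := hP
  rw [← h5, Equiv.Perm.one_apply, Prod.mk.injEq] at h8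
  obtain ⟨h9, h10⟩ := h8
  have hl : l = 0 := by
    have := congrArg Fin.val h10
    simpa using this
  have hL : L = [] := List.length_eq_zero_iff.mp hl
  have hh0 : hh 0 = qs v0 (h v0) := rfl
  rw [hh0] at h9
  have h11 : h v0 ∈ N v0 := (hqs1 v0 (h v0)).mp h9.symm
  have h12 : h v0 ≠ 1 := by
    intro h13
    apply hx1
    rw [← hev, hL]
    simp only [eval]
    rw [h13, vx_one]
  exact hN1 v0 (h v0) (Finset.mem_insert_self _ _) h12 h11

end Pool.Agent.GRF
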