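import Pool.Agent.Helper55_GRF.Equivar

/-!
# Permutation representations detecting a reduced word
-/

set_option autoImplicit false

namespace Pool.Agent.GRF

/-- left multiplication on the first coordinate -/
def lmul {Q : Type} [Group Q] (l : ℕ) : Q →* Equiv.Perm (Q × Fin (l + 1)) where
  toFun g := Equiv.prodCongr (Equiv.mulLeft g) (Equiv.refl _)
  map_one' := by
    ext ⟨a, b⟩ <;> simp
  map_mul' g h := by
    ext ⟨a, b⟩ <;> simp [mul_assoc]

theorem lmul_apply {Q : Type} [Group Q] (l : ℕ) (g a : Q) (k : Fin (l + 1)) :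
    lmul l g (a, k) = (g * a, k) := rfl

theorem ofFn_prod {Ω : Type} (l : ℕ) : ∀ (s : Fin l → Equiv.Perm Ω) (z : ℕ → Ω),
    (∀ j : Fin l, s j (z (j + 1)) = z j) → (List.ofFn s).prod (z l) = z 0 := by
  induction l with
  | zero => intro s z _; simp
  | succ l ih =>
    intro s z hz
    rw [List.ofFn_succ, List.prod_cons, Equiv.Perm.mul_apply]
    have h1 := ih (fun j => s j.succ) (fun j => z (j + 1)) (by
      intro j
      have := hz j.succ
      simpa using this)
    simp only [zero_add] at h1
    rw [h1]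
    have := hz 0
    simpa using this

/-- **Permutation representations.** -/
theorem permRep {Q : Type} [Group Q] [Fintype Q] {E : Type} (K : E → Type)
    [∀ e, Group (K e)] (α β : ∀ e, K e →* Q) (hαβ : ∀ e a, α e a = 1 ↔ β e a = 1)
    (l : ℕ) (edge : Fin l → E) (sgn : Fin l → Bool) (h : Fin (l + 1) → Q)
    (h1 : ∀ (j : ℕ) (hj : j + 1 < l),
      edge ⟨j, Nat.lt_of_succ_lt hj⟩ = edge ⟨j + 1, hj⟩ →
      sgn ⟨j, Nat.lt_of_succ_lt hj⟩ = true → sgn ⟨j + 1, hj⟩ = false →
      ∀ a : K (edge ⟨j, Nat.lt_of_succ_lt hj⟩),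
        β (edge ⟨j, Nat.lt_of_succ_lt hj⟩) a ≠ h ⟨j + 1, Nat.lt_succ_of_lt hj⟩)
    (h2 : ∀ (j : ℕ) (hj : j + 1 < l),
      edge ⟨j, Nat.lt_of_succ_lt hj⟩ = edge ⟨j + 1, hj⟩ →
      sgn ⟨j, Nat.lt_of_succ_lt hj⟩ = false → sgn ⟨j + 1, hj⟩ = true →
      ∀ a : K (edge ⟨j, Nat.lt_of_succ_lt hj⟩),
        α (edge ⟨j, Nat.lt_of_succ_lt hj⟩) a ≠ h ⟨j + 1, Nat.lt_succ_of_lt hj⟩) :
    ∃ f : E → Equiv.Perm (Q × Fin (l + 1)),
      (∀ e a ω, f e (lmul l (β e a) ω) = lmul l (α e a) (f e ω)) ∧
      (lmul l (h 0) * (List.ofFn fun j : Fin l =>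
        (if sgn j then f (edge j) else (f (edge j))⁻¹) * lmul l (h j.succ)).prod)
          (1, Fin.last l) = (h 0, 0) := by
  classical
  -- points
  let z : ℕ → Q × Fin (l + 1) := fun j => (1, Fin.ofNat (l + 1) j)
  let y : ℕ → Q × Fin (l + 1) := fun j => (h (Fin.ofNat (l + 1) j), Fin.ofNat (l + 1) j)
  have hval : ∀ j : ℕ, j < l + 1 → ((Fin.ofNat (l + 1) j : Fin (l + 1)) : ℕ) = j := by
    intro j hj
    simp [Fin.ofNat, Nat.mod_eq_of_lt hj]
  have hfin : ∀ (j : ℕ) (hj : j < l + 1), (Fin.ofNat (l + 1) j : Fin (l + 1)) = ⟨j, hj⟩ := by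
    intro j hj
    apply Fin.ext
    exact hval j hj
  have key : ∀ e : E, ∃ F : Equiv.Perm (Q × Fin (l + 1)),
      (∀ a ω, F (lmul l (β e a) ω) = lmul l (α e a) (F ω)) ∧
      ∀ i : {j : Fin l // edge j = e},
        F (if sgn i.1 then y (i.1 + 1) else z i.1) = (if sgn i.1 then z i.1 else y (i.1 + 1)) := by
    intro e
    have hstab : ∀ (γ : K e →* Q) (a : K e) (ω : Q × Fin (l + 1)),
        ((lmul l).comp γ) a ω = ω ↔ γ a = 1 := by
      rintro γ a ⟨b, k⟩
      rw [MonoidHom.comp_apply, lmul_apply, Prod.mk.injEq]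
      simp
    refine equivariant (α e).ker rfl ((lmul l).comp (β e)) ?_ ((lmul l).comp (α e)) ?_
      (fun i : {j : Fin l // edge j = e} => if sgn i.1 then y (i.1 + 1) else z i.1) ?_
      (fun i : {j : Fin l // edge j = e} => if sgn i.1 then z i.1 else y (i.1 + 1)) ?_
    · intro a ω
      rw [hstab, MonoidHom.mem_ker, hαβ]
    · intro a ω
      rw [hstab, MonoidHom.mem_ker]
    · rintro ⟨i, hi⟩ ⟨j, hj⟩ hne a heq
      have hne' : (i : ℕ) ≠ j := by
        intro h'; apply hne; exact Subtype.ext (Fin.ext h')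
      have hil := i.2
      have hjl := j.2
      simp only [MonoidHom.comp_apply] at heq
      cases hsi : sgn i <;> cases hsj : sgn j
      · simp only [hsi, hsj, Bool.false_eq_true, if_false, z, lmul_apply, Prod.mk.injEq] at heq
        have := congrArg Fin.val heq.2
        rw [hval _ (by omega), hval _ (by omega)] at this
        exact hne' this
      · simp only [hsi, hsj, Bool.false_eq_true, if_false, if_true, z, y, lmul_apply,
          Prod.mk.injEq] at heq
        have h3 := congrArg Fin.val heq.2
        rw [hval _ (by omega), hval _ (by omega)] at h3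
        -- i = j + 1, sgn j = true, sgn i = false
        have h4 : i = ⟨(j : ℕ) + 1, by omega⟩ := Fin.ext h3
        have h5 := h1 j (by omega) (by
          rw [← h4, hi]; exact hj) hsj (by rw [← h4]; exact hsi)
        have h6 : edge ⟨(j : ℕ), by omega⟩ = e := hj
        rw [hfin _ (by omega)] at heq
        subst h6
        exact h5 a (by rw [← heq.1, mul_one])
      · simp only [hsi, hsj, Bool.false_eq_true, if_false, if_true, z, y, lmul_apply,
          Prod.mk.injEq] at heq
        have h3 := congrArg Fin.val heq.2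
        rw [hval _ (by omega), hval _ (by omega)] at h3
        have h4 : j = ⟨(i : ℕ) + 1, by omega⟩ := Fin.ext h3.symm
        have h5 := h1 i (by omega) (by
          rw [← h4, hj]; exact hi) hsi (by rw [← h4]; exact hsj)
        have h6 : edge ⟨(i : ℕ), by omega⟩ = e := hi
        rw [hfin (i + 1) (by omega)] at heq
        subst h6
        refine h5 a⁻¹ ?_
        rw [map_inv]
        exact (eq_inv_of_mul_eq_one_right heq.1).symm
      · simp only [hsi, hsj, if_true, y, lmul_apply, Prod.mk.injEq] at heq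
        have := congrArg Fin.val heq.2
        rw [hval _ (by omega), hval _ (by omega)] at this
        exact hne' (by omega)
    · rintro ⟨i, hi⟩ ⟨j, hj⟩ hne a heq
      have hne' : (i : ℕ) ≠ j := by
        intro h'; apply hne; exact Subtype.ext (Fin.ext h')
      have hil := i.2
      have hjl := j.2
      simp only [MonoidHom.comp_apply] at heq
      cases hsi : sgn i <;> cases hsj : sgn j
      · simp only [hsi, hsj, Bool.false_eq_true, if_false, y, lmul_apply, Prod.mk.injEq] at heq
        have := congrArg Fin.val heq.2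
        rw [hval _ (by omega), hval _ (by omega)] at this
        exact hne' (by omega)
      · simp only [hsi, hsj, Bool.false_eq_true, if_false, if_true, z, y, lmul_apply,
          Prod.mk.injEq] at heq
        have h3 := congrArg Fin.val heq.2
        rw [hval _ (by omega), hval _ (by omega)] at h3
        -- i + 1 = j, sgn i = false, sgn j = true
        have h4 : j = ⟨(i : ℕ) + 1, by omega⟩ := Fin.ext h3.symm
        have h5 := h2 i (by omega) (by
          rw [← h4, hj]; exact hi) hsi (by rw [← h4]; exact hsj)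
        have h6 : edge ⟨(i : ℕ), by omega⟩ = e := hi
        rw [hfin (i + 1) (by omega)] at heq
        subst h6
        refine h5 a⁻¹ ?_
        rw [map_inv]
        exact (eq_inv_of_mul_eq_one_right heq.1).symm
      · simp only [hsi, hsj, Bool.false_eq_true, if_false, if_true, z, y, lmul_apply,
          Prod.mk.injEq] at heq
        have h3 := congrArg Fin.val heq.2
        rw [hval _ (by omega), hval _ (by omega)] at h3
        have h4 : i = ⟨(j : ℕ) + 1, by omega⟩ := Fin.ext h3
        have h5 := h2 j (by omega) (by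
          rw [← h4, hi]; exact hj) hsj (by rw [← h4]; exact hsi)
        have h6 : edge ⟨(j : ℕ), by omega⟩ = e := hj
        rw [hfin _ (by omega)] at heq
        subst h6
        exact h5 a (by rw [← heq.1, mul_one])
      · simp only [hsi, hsj, if_true, z, lmul_apply, Prod.mk.injEq] at heq
        have := congrArg Fin.val heq.2
        rw [hval _ (by omega), hval _ (by omega)] at this
        exact hne' this
  choose f hf1 hf2 using key
  refine ⟨f, hf1, ?_⟩
  have hz : ∀ j : Fin l, ((if sgn j then f (edge j) else (f (edge j))⁻¹) * lmul l (h j.succ))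
      (z (j + 1)) = z j := by
    intro j
    have hjl := j.2
    have hyz : lmul l (h j.succ) (z (j + 1)) = y (j + 1) := by
      simp only [z, y, lmul_apply, mul_one]
      rw [hfin _ (by omega)]
      rfl
    rw [Equiv.Perm.mul_apply, hyz]
    have h3 := hf2 (edge j) ⟨j, rfl⟩
    cases hs : sgn j
    · simp only [hs, Bool.false_eq_true, if_false] at h3 ⊢
      rw [← h3]
      exact Equiv.symm_apply_apply (f (edge j)) _
    · simp only [hs, if_true] at h3 ⊢
      exact h3
  have h4 := ofFn_prod l _ z hz
  have h5 : z l = (1, Fin.last l) := by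
    simp only [z]
    rw [hfin l (by omega)]
    rfl
  rw [h5] at h4
  rw [Equiv.Perm.mul_apply, h4]
  simp only [z, lmul_apply, mul_one]
  rfl

end Pool.Agent.GRF
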