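import Pool.Agent.Helper55_GRF.CoreSep
import Pool.Agent.Helper55_GRF.Main

/-!
# The pieces: cusped hyperbolic manifold groups times free abelian groups
-/

set_option autoImplicit false

namespace Pool.Agent.GRF

open Matrix Pool.Agent.CuspCov

variable {n : ℕ}

/-- A subgroup `P` of `Γ` is the maximal parabolic subgroup of a cusp with torus cross-section:
for an isotropic vector `e` and vectors `w_1, ..., w_{n-1}` orthogonal to `e` and linearly
independent modulo `e`, the elements of `P` are exactly the parabolic translations at `e` in the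
directions of the lattice spanned by the `w_j`, and `P` is the full stabiliser of the line of `e`
in `Γ`. -/
def IsMaxTorusCusp (Γ : Subgroup (GL (Fin (n + 1)) ℝ)) (P : Subgroup Γ) : Prop :=
  ∃ (e : Fin (n + 1) → ℝ) (w : Fin (n - 1) → (Fin (n + 1) → ℝ)),
    e ≠ 0 ∧ lor e e = 0 ∧ (∀ j, lor e (w j) = 0) ∧
    (∀ (a : Fin (n - 1) → ℝ) (b : ℝ), ∑ j, a j • w j = b • e → a = 0) ∧
    (∀ g ∈ P, ∃ a : Fin (n - 1) → ℤ, ∀ x,
      ((g : GL (Fin (n + 1)) ℝ) : Matrix (Fin (n + 1)) (Fin (n + 1)) ℝ) *ᵥ x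
        = parabolic e (∑ j, (a j : ℝ) • w j) x) ∧
    (∀ a : Fin (n - 1) → ℤ, ∃ g ∈ P, ∀ x,
      ((g : GL (Fin (n + 1)) ℝ) : Matrix (Fin (n + 1)) (Fin (n + 1)) ℝ) *ᵥ x
        = parabolic e (∑ j, (a j : ℝ) • w j) x) ∧
    ∀ g : Γ, (∃ c : ℝ,
      ((g : GL (Fin (n + 1)) ℝ) : Matrix (Fin (n + 1)) (Fin (n + 1)) ℝ) *ᵥ e = c • e) → g ∈ P

theorem max_cusp_data (Γ : Subgroup (GL (Fin (n + 1)) ℝ)) (P : Subgroup Γ)
    (hP : IsMaxTorusCusp Γ P) :
    ∃ (e : Fin (n + 1) → ℝ) (w : Fin (n - 1) → (Fin (n + 1) → ℝ)),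
      lor e e = 0 ∧ (∀ j, lor e (w j) = 0) ∧ LinearIndependent ℝ (fun j => inf e (w j)) ∧
      (∀ g ∈ P, ∃ a : Fin (n - 1) → ℤ, rep Γ g = expo e (∑ j, (a j : ℝ) • w j)) ∧
      (∀ a : Fin (n - 1) → ℤ, ∃ g ∈ P, rep Γ g = expo e (∑ j, (a j : ℝ) • w j)) ∧
      (∀ g ∈ P, rep Γ g *ᵥ e = e) ∧
      ∀ g : Γ, (∃ c : ℝ, rep Γ g *ᵥ e = c • e) → g ∈ P := by
  obtain ⟨e, w, he0, he, hw, hind, h1, h2, h3⟩ := hP
  have hwa : ∀ a : Fin (n - 1) → ℤ, lor e (∑ j, (a j : ℝ) • w j) = 0 := lor_dir e w hw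
  refine ⟨e, w, he, hw, inf_linearIndependent e he0 w hind, ?_, ?_, ?_, h3⟩
  · intro g hg
    obtain ⟨a, ha⟩ := h1 g hg
    refine ⟨a, matrix_ext_mulVec fun x => ?_⟩
    unfold expo
    rw [exp_mulVec e _ x he (hwa a)]
    exact ha x
  · intro a
    obtain ⟨g, hg, ha⟩ := h2 a
    refine ⟨g, hg, matrix_ext_mulVec fun x => ?_⟩
    unfold expo
    rw [exp_mulVec e _ x he (hwa a)]
    exact ha x
  · intro g hg
    obtain ⟨a, ha⟩ := h1 g hg
    have := ha e
    change rep Γ g *ᵥ e = _ at this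
    rw [this]
    unfold parabolic
    rw [he, hwa a]
    simp

/-- reduction modulo `t` of the free abelian group -/
def redHom (k t : ℕ) : Multiplicative (Fin k → ℤ) →* Multiplicative (Fin k → ZMod t) :=
  AddMonoidHom.toMultiplicative
    { toFun := fun z j => (z j : ZMod t)
      map_zero' := by ext j; simp
      map_add' := fun x y => by ext j; simp }

theorem mem_redHom_ker (k t : ℕ) (z : Multiplicative (Fin k → ℤ)) :
    z ∈ (redHom k t).ker ↔ ∀ j, (t : ℤ) ∣ Multiplicative.toAdd z j := by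
  rw [MonoidHom.mem_ker]
  constructor
  · intro h j
    have h1 : (Multiplicative.toAdd (redHom k t z)) j = 0 := by rw [h]; rfl
    exact (ZMod.intCast_zmod_eq_zero_iff_dvd _ t).mp h1
  · intro h
    apply Multiplicative.toAdd.injective
    ext j
    exact (ZMod.intCast_zmod_eq_zero_iff_dvd _ t).mpr (h j)

/-- **The pieces.** -/
theorem piece_sep (Γ : Subgroup (GL (Fin (n + 1)) ℝ)) (hΓ : Group.FG Γ) {ι : Type} [Fintype ι]
    (P : ι → Subgroup Γ) (hP : ∀ i, IsMaxTorusCusp Γ (P i)) (k : ℕ) :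
    Sep (G := Γ × Multiplicative (Fin k → ℤ)) (fun i => (P i).prod ⊤) := by
  classical
  choose e w he hw hind h1 h2 hfix hstab using fun i => max_cusp_data Γ (P i) (hP i)
  intro F
  obtain ⟨D1, hD1, hkey⟩ := coreSep hΓ (rep Γ) (rep_injective Γ) (fun i j => inf (e i) (w i j)) hind
    e P hfix hstab (F.image Prod.fst)
  let D2 : ℕ := ∏ x ∈ F, ∏ j, (if Multiplicative.toAdd x.2 j = 0 then 1 else
    (Multiplicative.toAdd x.2 j).natAbs)
  have hD2 : 0 < D2 := by
    refine Finset.prod_pos fun x _ => Finset.prod_pos fun j _ => ?_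
    split_ifs with h
    · exact one_pos
    · exact Int.natAbs_pos.mpr h
  refine ⟨D1 * D2, Nat.mul_pos hD1 hD2, ?_⟩
  intro t ht htD
  obtain ⟨N, hN, hNf, hNP, hN1, hN2⟩ := hkey t ht (Nat.Coprime.coprime_mul_right_right htD)
  have htD2 : Nat.Coprime t D2 := Nat.Coprime.coprime_mul_left_right htD
  have : NeZero t := ⟨by omega⟩
  have hfr : Finite (redHom k t).range := inferInstance
  have hNf2 : (redHom k t).ker.FiniteIndex := Subgroup.finiteIndex_ker _
  have hNN : (N.prod (redHom k t).ker).FiniteIndex :=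
    ⟨by rw [Subgroup.index_prod]; exact mul_ne_zero hNf.index_ne_zero hNf2.index_ne_zero⟩
  refine ⟨N.prod (redHom k t).ker, inferInstance, hNN, ?_, ?_, ?_⟩
  · rintro i ⟨g, z⟩ hgz
    have hgP : g ∈ P i := (Subgroup.mem_prod.mp hgz).1
    rw [Subgroup.mem_prod]
    simp only
    rw [mem_redHom_ker]
    constructor
    · rintro ⟨hgN, hz⟩
      obtain ⟨a, ha⟩ := h1 i g hgP
      have h3 := (hNP i g a _ rfl
        (by rw [← inf_sum]; exact inf_cube _ _ (he i) (lor_dir (e i) (w i) (hw i) a))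
        (by rw [← inf_sum]; exact ha)).mp hgN
      choose b hb using h3
      obtain ⟨h, hhP, hh⟩ := h2 i b
      choose c hc using hz
      refine ⟨(h, Multiplicative.ofAdd c), Subgroup.mem_prod.mpr ⟨hhP, Subgroup.mem_top _⟩, ?_⟩
      refine Prod.ext ?_ ?_
      · apply rep_injective Γ
        change rep Γ g = rep Γ (h ^ t)
        rw [map_pow, hh, expo_dir_pow _ _ (he i) (hw i), ha]
        congr 1
        refine Finset.sum_congr rfl fun j _ => ?_
        rw [hb j]
      · change z = Multiplicative.ofAdd c ^ t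
        apply Multiplicative.toAdd.injective
        rw [toAdd_pow, toAdd_ofAdd]
        ext j
        rw [hc j]
        simp
    · rintro ⟨⟨h, z'⟩, hh, hgz'⟩
      have hhP : h ∈ P i := (Subgroup.mem_prod.mp hh).1
      have hg : g = h ^ t := congrArg Prod.fst hgz'
      have hz : z = z' ^ t := congrArg Prod.snd hgz'
      constructor
      · obtain ⟨b, hb⟩ := h1 i h hhP
        have h4 : rep Γ (h ^ t) = expo (e i) (∑ j, (((t : ℤ) * b j : ℤ) : ℝ) • w i j) := by
          rw [map_pow, hb, expo_dir_pow _ _ (he i) (hw i)]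
        rw [hg]
        exact (hNP i (h ^ t) (fun j => (t : ℤ) * b j) _ rfl
          (by rw [← inf_sum]; exact inf_cube _ _ (he i) (lor_dir (e i) (w i) (hw i) _))
          (by rw [← inf_sum]; exact h4)).mpr fun j => Dvd.intro _ rfl
      · intro j
        rw [hz, toAdd_pow]
        simp
  · rintro ⟨g, z⟩ hx hx1 hxN
    rw [Subgroup.mem_prod] at hxN
    obtain ⟨hgN, hz⟩ := hxN
    simp only at hgN hz
    rw [mem_redHom_ker] at hz
    by_cases hg1 : g = 1
    · have hz1 : z ≠ 1 := by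
        intro h; apply hx1; rw [hg1, h]; rfl
      have hz2 : ∃ j, Multiplicative.toAdd z j ≠ 0 := by
        by_contra hcon
        push Not at hcon
        apply hz1
        apply Multiplicative.toAdd.injective
        ext j
        exact hcon j
      obtain ⟨j, hj⟩ := hz2
      have h5 : (Multiplicative.toAdd z j).natAbs ∣ D2 := by
        have h6 : (if Multiplicative.toAdd z j = 0 then 1 else
            (Multiplicative.toAdd z j).natAbs) = (Multiplicative.toAdd z j).natAbs := if_neg hj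
        rw [← h6]
        refine (Finset.dvd_prod_of_mem (fun j => (if Multiplicative.toAdd z j = 0 then 1 else
            (Multiplicative.toAdd z j).natAbs)) (Finset.mem_univ j)).trans ?_
        exact Finset.dvd_prod_of_mem (fun x : Γ × Multiplicative (Fin k → ℤ) =>
          ∏ j, (if Multiplicative.toAdd x.2 j = 0 then 1 else
            (Multiplicative.toAdd x.2 j).natAbs)) hx
      have h7 : Nat.Coprime t (Multiplicative.toAdd z j).natAbs :=
        htD2.coprime_dvd_right h5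
      have h8 : t ∣ (Multiplicative.toAdd z j).natAbs := Int.natCast_dvd.mp (hz j)
      have h9 : t ∣ 1 := by
        rw [← h7]; exact Nat.dvd_gcd dvd_rfl h8
      have := Nat.le_of_dvd one_pos h9
      omega
    · exact hN1 g (Finset.mem_image.mpr ⟨(g, z), hx, rfl⟩) hg1 hgN
  · rintro ⟨g, z⟩ hx i hxP ⟨u, z1⟩ hu ⟨ν, z2⟩ hν heq
    have hgP : g ∉ P i := fun h => hxP (Subgroup.mem_prod.mpr ⟨h, Subgroup.mem_top _⟩)
    exact hN2 g (Finset.mem_image.mpr ⟨(g, z), hx, rfl⟩) i hgP u (Subgroup.mem_prod.mp hu).1 ν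
      (Subgroup.mem_prod.mp hν).1 (congrArg Prod.fst heq)

end Pool.Agent.GRF
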